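import Pool.Agent.H39.CoHopfEnd

namespace Pool.Agent.Results.MP_ce3880_al.ExtensionNo

open Pool.Agent.H39

/-- There is a finitely presented group that is not co-hopfian but has a co-hopfian subgroup of
index two. -/
theorem result : ∃ (G : Type) (_ : Group G) (H : Subgroup G),
    Group.IsFinitelyPresented G ∧ H.index = 2 ∧
    (∀ f : H →* H, Function.Injective f → Function.Surjective f) ∧
    ¬ (∀ f : G →* G, Function.Injective f → Function.Surjective f) := by
  refine ⟨D10 × GG, inferInstance, fib chiG, fp_prod, index_fib, fib_cohopf, ?_⟩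
  intro h
  obtain ⟨f, hf, hns⟩ := exists_not_surj_prod
  exact hns (h f hf)

end Pool.Agent.Results.MP_ce3880_al.ExtensionNo
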