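import Pool.Agent.H39.CoHopfEnd

namespace Pool.Agent.Results.MP_ce3880_al.SubgroupNo

open Pool.Agent.H39

/-- There is a finitely presented co-hopfian group with a subgroup of index two that is not
co-hopfian. -/
theorem result : ∃ (G : Type) (_ : Group G) (H : Subgroup G),
    Group.IsFinitelyPresented G ∧ H.index = 2 ∧
    (∀ f : G →* G, Function.Injective f → Function.Surjective f) ∧
    ¬ (∀ f : H →* H, Function.Injective f → Function.Surjective f) := by
  refine ⟨TW chiG, inferInstance, _, inferInstance, index_ker, TW_cohopf, ?_⟩
  intro h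
  obtain ⟨f, hf, hns⟩ := exists_not_surj_ker
  exact hns (h f hf)

end Pool.Agent.Results.MP_ce3880_al.SubgroupNo
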